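import Pool.Agent.H34.CM.Fin

/-!
# The Poisson boundary and the mean height

Let `f : G → ℤ` be a homomorphism. (1) If the windows of `G` are small (`SmallWindows`: the series
`∑_j exp (-c log |W_{2^j}| / 4^j)` diverges for every `c > 0`), then the Poisson boundary of `(G, mu)`
is trivial for every generating probability measure `mu` with finite second moment and mean height `0`,
symmetric or not. (2) If `f` is onto with infinite, locally finite kernel, then it is not trivial for every
probability measure `mu` with finite first moment and nonzero mean height, generating or not. (3) There is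
a lacunary hyperbolic (locally finite)-by-`ℤ` group on which the boundary is trivial for every generating
probability measure whose height is integrable with mean `0`, and on which, for every generating
probability measure with finite first moment, it is trivial exactly when the mean height is `0`; finitely
supported measures of both kinds exist.
-/

namespace Pool.Agent.Results.MP_6350f2_pr.DriftDichotomy

open Pool.Agent.H34.LS Pool.Agent.H34.FL Pool.Agent.H34.DC Pool.Agent.H34.DA Pool.Agent.H34.CM

universe u

theorem result :
    (∀ (G : Type u) [Group G] (f : G →* Multiplicative ℤ) (S : Set G), SmallWindows f S →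
      ∀ mu : G → ℝ, IsProb mu → Generating mu → SecondMoment mu → mean f mu = 0 →
        Liouville mu) ∧
    (∀ (G : Type u) [Group G] (f : G →* Multiplicative ℤ), Onto f →
      ∀ mu : G → ℝ, IsProb mu → FirstMoment mu → mean f mu ≠ 0 → ¬ Liouville mu) ∧
    ∃ (G : Type) (_ : Group G) (f : G →* Multiplicative ℤ), Group.FG G ∧ LocFinByZ G ∧
      LacunaryHyperbolic G ∧ Function.Surjective f ∧
      (∃ mu : G → ℝ, IsFSProb mu ∧ Generating mu ∧ Symm mu ∧ mean f mu = 0) ∧
      (∃ mu : G → ℝ, IsFSProb mu ∧ Generating mu ∧ mean f mu ≠ 0) ∧
      (∀ mu : G → ℝ, IsProb mu → Generating mu → CenteredHeight f mu → Liouville mu) ∧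
      ∀ mu : G → ℝ, IsProb mu → Generating mu → FirstMoment mu →
        (Liouville mu ↔ mean f mu = 0) :=
  main6

end Pool.Agent.Results.MP_6350f2_pr.DriftDichotomy
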