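import Pool.Agent.H34.FL.Fin

/-!
# Limits of residually finite hyperbolic groups lift to lacunary hyperbolic groups with the same
bounded harmonic functions

Let `G'` be a direct limit of residually finite hyperbolic groups, for example a finitely generated
(locally finite)-by-`ℤ` group. There are a lacunary hyperbolic group `G`, again such a limit, and an
epimorphism `theta : G → G'` whose kernel is a union of finite normal subgroups of `G`, such that for
*every* generating probability measure `mu` on `G`, of any support, the bounded `mu`-harmonic
functions on `G` are exactly the functions `f' ∘ theta` with `f'` bounded and harmonic for the image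
measure. Symmetric finitely supported generating measures lift. Hence, inside this class of groups,
a lacunary hyperbolic counterexample to Kaimanovich's stability conjecture exists if and only if the
conjecture fails for some group of the class.
-/

namespace Pool.Agent.Results.MP_6350f2_pr.LacunaryLifting

open Pool.Agent.H34.LS Pool.Agent.H34.FL

universe u

theorem result :
    (∀ (G' : Type u) [Group G'], LimitRFHyp G' →
      ∃ (G : Type u) (_ : Group G) (theta : G →* G'), LacunaryHyperbolic G ∧ LimitRFHyp G ∧
        (LocFinByZ G' → LocFinByZ G) ∧ Function.Surjective theta ∧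
        (∀ x, theta x = 1 → ∃ N : Subgroup G, N.Normal ∧ (N : Set G).Finite ∧ x ∈ N ∧
          N ≤ theta.ker) ∧
        (∀ mu : G → ℝ, IsProb mu → Generating mu →
          (∀ f : G → ℝ, BddHarm mu f ↔
            ∃ f' : G' → ℝ, BddHarm (image theta mu) f' ∧ f = fun g => f' (theta g)) ∧
          (Liouville mu ↔ Liouville (image theta mu))) ∧
        (∀ mu' : G' → ℝ, IsFSProb mu' → Generating mu' → Symm mu' →
          ∃ mu : G → ℝ, IsFSProb mu ∧ Generating mu ∧ Symm mu ∧ image theta mu = mu')) ∧
    (∀ (G' : Type u) [Group G'], Group.FG G' → LocFinByZ G' → LimitRFHyp G') ∧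
    ((∃ (G : Type u) (_ : Group G), LacunaryHyperbolic G ∧ LimitRFHyp G ∧ Unstable G) ↔
      ∃ (G' : Type u) (_ : Group G'), LimitRFHyp G' ∧ Unstable G') ∧
    ((∃ (G : Type u) (_ : Group G), LacunaryHyperbolic G ∧ LocFinByZ G ∧ Unstable G) ↔
      ∃ (G' : Type u) (_ : Group G'), Group.FG G' ∧ LocFinByZ G' ∧ Unstable G') :=
  main3

end Pool.Agent.Results.MP_6350f2_pr.LacunaryLifting
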