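import Pool.Agent.H34.EX.Fin

/-!
# The exact moment threshold for the Poisson boundary on a lacunary hyperbolic group

There is a lacunary hyperbolic (locally finite)-by-`ℤ` group `G` with a homomorphism `f` onto `ℤ` such
that the following holds; `M_j = ∑ mu(g) min(|g|, 2^j)^2`. For every generating probability measure `mu`
on `G` with finite second moment, of finite or infinite support, symmetric or not, the Poisson boundary is
trivial exactly when the mean height of `mu` is `0`. It is trivial for every symmetric generating `mu` with
`∑ 1 / M_j` infinite (`SlowMoment`), in particular for those of finite second moment. This test is exact: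
for every nondecreasing positive sequence `b`, all symmetric generating `mu` with `M_j = O(b_j)` (`TruncO`)
have a trivial Poisson boundary if and only if `∑ 1 / b_j` is infinite. Some symmetric generating `mu` with
finite moments of every order `p < 2`, and even with `∑ mu(g) |g|^2 / log(2 + |g|)^6` finite, has a
nontrivial Poisson boundary. A nonzero mean height gives a nontrivial boundary for measures with finite
first moment.
-/

namespace Pool.Agent.Results.MP_6350f2_pr.MomentThreshold

open Pool.Agent.H34.LS Pool.Agent.H34.FL Pool.Agent.H34.DA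

open Pool.Agent.H34.CM (SecondMoment)

open Pool.Agent.H34.PW (SlowMoment)

open Pool.Agent.H34.EX (TruncO exact_test)

theorem result :
    ∃ (G : Type) (_ : Group G) (f : G →* Multiplicative ℤ), Group.FG G ∧ LocFinByZ G ∧
      LacunaryHyperbolic G ∧ Function.Surjective f ∧
      (∃ mu : G → ℝ, IsFSProb mu ∧ Generating mu ∧ Symm mu ∧ mean f mu = 0) ∧
      (∃ mu : G → ℝ, IsFSProb mu ∧ Generating mu ∧ mean f mu ≠ 0) ∧
      (∀ mu : G → ℝ, IsProb mu → Generating mu → SecondMoment mu →
        (Liouville mu ↔ mean f mu = 0)) ∧
      (∀ mu : G → ℝ, IsProb mu → Generating mu → Symm mu → SlowMoment mu → Liouville mu) ∧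
      (∀ mu : G → ℝ, IsProb mu → Generating mu → SecondMoment mu → SlowMoment mu) ∧
      (∀ b : ℕ → ℝ, Monotone b → 0 < b 0 →
        ((∀ mu : G → ℝ, IsProb mu → Generating mu → Symm mu → TruncO mu b → Liouville mu) ↔
          ¬ Summable fun j => (b j)⁻¹)) ∧
      (∀ mu : G → ℝ, IsProb mu → Generating mu → FirstMoment mu → mean f mu ≠ 0 →
        ¬ Liouville mu) ∧
      ∃ mu : G → ℝ, IsProb mu ∧ Generating mu ∧ Symm mu ∧ mean f mu = 0 ∧
        (∀ S : Set G, S.Finite → Subgroup.closure S = ⊤ → ∀ p : ℝ, 0 ≤ p → p < 2 →
          Summable fun g => mu g * (wordLength S g : ℝ) ^ p) ∧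
        (∀ S : Set G, S.Finite → Subgroup.closure S = ⊤ →
          Summable fun g => mu g * ((wordLength S g : ℝ) ^ 2 /
            Real.log (2 + (wordLength S g : ℝ)) ^ 6)) ∧ ¬ Liouville mu :=
  exact_test

end Pool.Agent.Results.MP_6350f2_pr.MomentThreshold
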