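import Pool.Agent.H34.RQ.Fin

/-!
# The threshold of return probabilities for the Liouville property of all symmetric walks

Let `psi n = - log (mu^{*2n} (1))` for a symmetric finitely supported generating probability
measure `mu` on a group `G`. If `psi n = o (√(n log log n))`, or if `psi n ≤ C √n` for infinitely
many `n`, or, more generally, if for every `c > 0` the series `∑_j exp (-c psi (2^j)^2 / 2^j)`
diverges (`SlowReturn`), then on *every* finitely generated group `H` quasi-isometric to `G` *every*
symmetric generating probability measure with finite second moment, of finite or infinite support,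
has the Liouville property (`QILiouville G`). The same holds if `G` has good test functions (finitely
supported functions with small energy and small support) at all scales, and if `G` has a height
function with small windows.

Both growth conditions are sharp: for every `κ > 0` there is a finitely generated
(locally finite)-by-`ℤ` group with `log |W_n| ≤ κ n² log log n` and a symmetric finitely supported
generating probability measure `mu` with `psi n ≤ κ √(n log log n)` for all large `n` whose Poisson
boundary is not trivial.
-/

namespace Pool.Agent.Results.MP_6350f2_pr.ReturnProbability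

open Pool.Agent.H34.LS Pool.Agent.H34.RP Pool.Agent.H34.RQ Filter

universe u

theorem result :
    (∀ (G : Type u) [Group G] (mu : G → ℝ), IsFSProb mu → Generating mu → Symm mu →
      SlowReturn mu → QILiouville G) ∧
    (∀ (G : Type u) [Group G] (mu : G → ℝ) (K : ℕ → ℝ), IsFSProb mu → Generating mu →
      TestFunctions mu K → Diverges K → QILiouville G) ∧
    (∀ (G : Type u) [Group G] (f : G →* Multiplicative ℤ) (S : Set G),
      Subgroup.closure S = ⊤ → (∀ n, (window f S n).Finite) →
      Diverges (fun j => Real.log ((window f S (2 ^ j)).ncard : ℝ) / 4 ^ j) → QILiouville G) ∧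
    ∀ κ : ℝ, 0 < κ → ∃ (G : Type) (_ : Group G) (f : G →* Multiplicative ℤ) (S : Set G),
      LocFinByZ G ∧ Function.Surjective f ∧ S.Finite ∧ Subgroup.closure S = ⊤ ∧
      (∀ n, (window f S n).Finite) ∧
      (∀ᶠ n : ℕ in atTop, Real.log ((window f S n).ncard : ℝ) ≤
        κ * (n : ℝ) ^ 2 * Real.log (Real.log n)) ∧
      ∃ mu : G → ℝ, IsFSProb mu ∧ Generating mu ∧ Symm mu ∧
        (∀ᶠ n : ℕ in atTop, retLog mu n ≤ κ * Real.sqrt (n * Real.log (Real.log n))) ∧
        ¬ TrivialBoundary mu :=
  main2

end Pool.Agent.Results.MP_6350f2_pr.ReturnProbability
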